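import Mathlib
import Pool.Agent.Q46.ND.StmE

/-!
Lemma job LN-EA of project LN (helper46), proved by helper130: minors of a matrix which is
surjective after specialization.
-/

set_option autoImplicit false

namespace Pool.Agent.Q130.ND

open Matrix

/-- A surjective matrix over a field has an invertible square submatrix of full size. -/
theorem exists_minor {k p q : Type} [Field k] [Fintype p] [Fintype q] [DecidableEq q]
    (A : Matrix q p k) (h : ∀ v : q → k, ∃ u : p → k, A.mulVec u = v) :
    ∃ f : q → p, Function.Injective f ∧ (A.submatrix id f).det ≠ 0 := by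
  classical
  have hspan : Submodule.span k (Set.range A.col) = ⊤ := by
    rw [eq_top_iff]
    intro v _
    obtain ⟨u, hu⟩ := h v
    rw [← hu, ← Matrix.mulVecLin_apply, ← Matrix.range_mulVecLin]
    exact LinearMap.mem_range_self _ _
  obtain ⟨κ, a, ha, hs, hl⟩ := exists_linearIndependent' k A.col
  rw [hspan] at hs
  haveI : Finite κ := Finite.of_injective a ha
  haveI : Fintype κ := Fintype.ofFinite κ
  let b : Module.Basis κ k (q → k) := Module.Basis.mk hl hs.ge
  have hcard : Fintype.card q = Fintype.card κ := by
    have h1 := Module.finrank_eq_card_basis b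
    rw [Module.finrank_fintype_fun_eq_card] at h1
    exact h1
  let e : q ≃ κ := Fintype.equivOfCardEq hcard
  refine ⟨a ∘ e, ha.comp e.injective, ?_⟩
  have hl2 : LinearIndependent k (A.submatrix id (a ∘ e)).col := by
    have := hl.comp e e.injective
    exact this
  have hu := Matrix.linearIndependent_cols_iff_isUnit.mp hl2
  exact ((Matrix.isUnit_iff_isUnit_det _).mp hu).ne_zero

theorem t_EA : Pool.Agent.Q46.ND.P_EA := by
  intro T k p q _ _ _ _ s A h
  classical
  obtain ⟨f, hf, hd⟩ := exists_minor (A.map s) h
  refine ⟨(A.submatrix id f).det, ?_, ?_⟩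
  · rw [RingHom.map_det]
    exact hd
  · intro v
    refine ⟨Function.extend f ((A.submatrix id f).adjugate.mulVec v) 0, ?_⟩
    have h1 : (A.submatrix id f).mulVec ((A.submatrix id f).adjugate.mulVec v) =
        (A.submatrix id f).det • v := by
      rw [Matrix.mulVec_mulVec, Matrix.mul_adjugate, Matrix.smul_mulVec, Matrix.one_mulVec]
    rw [← h1]
    ext i
    simp only [Matrix.mulVec, dotProduct, Matrix.submatrix_apply, id]
    symm
    refine Finset.sum_of_injOn f hf.injOn (by simp) ?_ ?_
    · intro j _ hj
      rw [Function.extend_apply']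
      · simp
      · rintro ⟨x, hx⟩
        exact hj ⟨x, by simp, hx⟩
    · intro j _
      rw [hf.extend_apply]
      rfl

end Pool.Agent.Q130.ND
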